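import Mathlib

namespace Pool.Agent.MP_66a317_pr

/-- the levels `x_0 = L/2`, `x_(k+1) = log⁺ log⁺ x_k` -/
noncomputable def lev (L : ℝ) : ℕ → ℝ
  | 0 => L / 2
  | k + 1 => Real.posLog (Real.posLog (lev L k))

end Pool.Agent.MP_66a317_pr
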